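import Pool.Agent.J6H84.RG.Stm

/-!
# Project RG (helper84), module RED (helper61): Sylow reduction
-/

set_option autoImplicit false

namespace Pool.Agent.J6H61.RG.Red

open Finset Pool.Agent.H430R2.PermCubes Pool.Agent.J6H84.LM Pool.Agent.J6H84.TS

/-- a `p`-group acting on `n` points has an orbit of length at most the `p`-part of `n` -/
private theorem small_orbit {p n : ℕ} [Fact p.Prime] (hn : n ≠ 0) {A : Type} [Group A] [Finite A]
    (hP : IsPGroup p A) (ρ : A →* Equiv.Perm (Fin n)) :
    ∃ s : Fin n, Nat.card (Set.range fun g : A => ρ g s) ≤ p ^ n.factorization p := by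
  classical
  by_contra hcon
  push Not at hcon
  have hp : p.Prime := Fact.out
  letI : MulAction A (Fin n) := MulAction.compHom (Fin n) ρ
  have horb : ∀ s : Fin n, p ^ (n.factorization p + 1) ∣ Nat.card (MulAction.orbit A s) := by
    intro s
    obtain ⟨j, hj⟩ := hP.card_orbit s
    have h1 : p ^ n.factorization p < Nat.card (MulAction.orbit A s) := hcon s
    rw [hj] at h1 ⊢
    exact pow_dvd_pow p ((Nat.pow_lt_pow_iff_right hp.one_lt).1 h1)
  have hcard : n = Nat.card (Σ ω : MulAction.orbitRel.Quotient A (Fin n), ω.orbit) := by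
    rw [← Nat.card_congr (MulAction.selfEquivSigmaOrbits' A (Fin n)), Nat.card_eq_fintype_card,
      Fintype.card_fin]
  have hdvd : p ^ (n.factorization p + 1) ∣ n := by
    nth_rewrite 2 [hcard]
    haveI : Fintype (MulAction.orbitRel.Quotient A (Fin n)) := Fintype.ofFinite _
    rw [Nat.card_sigma]
    refine Finset.dvd_sum fun ω _ => ?_
    rw [MulAction.orbitRel.Quotient.orbit_eq_orbit_out ω Quotient.out_eq']
    exact horb _
  exact Nat.pow_succ_factorization_not_dvd hn hp hdvd

private theorem free_pow {p : ℕ} {X : Type} {A : Type} [Group A] (act : A →* Equiv.Perm X) {x : X}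
    (hF : ∀ g, act g x = x → g ^ p = 1 → g = 1) : ∀ (j : ℕ) (g : A), act g x = x → g ^ p ^ j = 1 → g = 1 := by
  intro j
  induction j with
  | zero =>
    intro g _ h
    simpa using h
  | succ j ih =>
    intro g hg h
    refine ih g hg (hF _ ?_ ?_)
    · rw [map_pow]
      exact Equiv.Perm.pow_apply_eq_self_of_apply_eq_self hg _
    · rw [← pow_mul, ← pow_succ]
      exact h

private theorem surj {m n k : ℕ} {C : Fin k → (Fin m → Fin n) → Fin n} (h1 : 1 ≤ m) (hmk : m ≤ k)
    (hC : IsArray m n k C) (i : Fin k) : Function.Surjective (C i) := by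
  intro s
  obtain ⟨S, hiS, -, hS⟩ := Finset.exists_subsuperset_card_eq (s := {i}) (t := Finset.univ)
    (n := m) (Finset.subset_univ _) (by simpa using h1) (by simpa using hmk)
  obtain ⟨x, hx⟩ := hC.exists_point S hS (fun _ => s)
  exact ⟨x, hx i (hiS (by simp))⟩

private theorem core {m n k p : ℕ} [Fact p.Prime] {C : Fin k → (Fin m → Fin n) → Fin n}
    (hm : 1 ≤ m) (hmk : m ≤ k) (hn : 2 ≤ n) (hC : IsArray m n k C) {A : Type} [Group A] [Finite A]
    (hP : IsPGroup p A) (act : A →* Equiv.Perm (Fin m → Fin n)) (hAut : ∀ g, Aut C 1 (act g))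
    (hfree : ∀ g x, act g x = x → g = 1) (q : ℕ) (hq : q = p ^ n.factorization p)
    (hcard : Nat.card A = q ^ m) :
    ∃ C' : Fin k → (Fin m → Fin q) → Fin q, IsArray m q k C' ∧
      ∃ Q : Subgroup (Equiv.Perm (Fin m → Fin q)),
        (∀ σ ∈ Q, Aut C' 1 σ) ∧ Nat.card Q = q ^ m := by
  classical
  have hT : ∀ i : Fin k, ∃ T : A →* Equiv.Perm (Fin n), ∀ g x, C i (act g x) = T g (C i x) := by
    intro i
    have hs := surj hm hmk hC i
    have hτ : ∀ g : A, ∃ τ : Equiv.Perm (Fin n), ∀ x, C i (act g x) = τ (C i x) := by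
      intro g
      obtain ⟨τ, hτ⟩ := hAut g i
      exact ⟨τ, fun x => by simpa using hτ x⟩
    choose τ hτ using hτ
    have hmul : ∀ g g' : A, τ (g * g') = τ g * τ g' := by
      intro g g'
      refine Equiv.ext fun s => ?_
      obtain ⟨x, rfl⟩ := hs s
      rw [← hτ (g * g') x, Equiv.Perm.mul_apply, ← hτ g' x, ← hτ g, map_mul]
      rfl
    exact ⟨MonoidHom.mk' τ hmul, fun g x => hτ g x⟩
  choose T hT using hT
  choose s hs using fun i => small_orbit (p := p) (by omega : n ≠ 0) hP (T i)
  rw [← hq] at hs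
  -- the maps
  let Ψ : (f : Fin m → Fin k) → A → ((j : Fin m) → Set.range fun g : A => T (f j) g (s (f j))) :=
    fun f g j => ⟨T (f j) g (s (f j)), g, rfl⟩
  have hΨ : ∀ f : Fin m → Fin k, Function.Injective f → Function.Injective (Ψ f) := by
    intro f hf g g' hgg
    obtain ⟨x, hx⟩ := (hC f hf).2 (fun j => s (f j))
    have h1 : act g x = act g' x := by
      refine (hC f hf).1 ?_
      funext j
      have h2 : C (f j) x = s (f j) := congrFun hx j
      have h3 : T (f j) g (s (f j)) = T (f j) g' (s (f j)) :=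
        congrArg Subtype.val (congrFun hgg j)
      change C (f j) (act g x) = C (f j) (act g' x)
      rw [hT, hT, h2, h3]
    have h4 : act (g'⁻¹ * g) x = x := by
      rw [map_mul, map_inv, Equiv.Perm.mul_apply, h1]
      exact (act g').symm_apply_apply x
    have h5 := hfree _ _ h4
    exact (inv_mul_eq_one.1 h5).symm
  have hle : ∀ f : Fin m → Fin k, Function.Injective f →
      q ^ m ≤ ∏ j, Nat.card (Set.range fun g : A => T (f j) g (s (f j))) := by
    intro f hf
    rw [← hcard, ← Nat.card_pi]
    exact Nat.card_le_card_of_injective _ (hΨ f hf)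
  have hO : ∀ i : Fin k, Nat.card (Set.range fun g : A => T i g (s i)) = q := by
    intro i
    let c : Fin k := Fin.castLE hmk ⟨0, hm⟩
    let f : Fin m → Fin k := fun j => Equiv.swap i c (Fin.castLE hmk j)
    have hf : Function.Injective f :=
      (Equiv.injective _).comp (Fin.castLE_injective hmk)
    have hf0 : f ⟨0, hm⟩ = i := Equiv.swap_apply_right i c
    refine le_antisymm (hs i) ?_
    by_contra hlt
    push Not at hlt
    have h1 := hle f hf
    have h2 : ∏ j, Nat.card (Set.range fun g : A => T (f j) g (s (f j))) <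
        ∏ _j : Fin m, q := by
      refine Finset.prod_lt_prod (fun j _ => ?_) (fun j _ => hs (f j)) ⟨⟨0, hm⟩, Finset.mem_univ _, ?_⟩
      · haveI : Nonempty (Set.range fun g : A => T (f j) g (s (f j))) := ⟨⟨_, 1, rfl⟩⟩
        exact Nat.card_pos
      · rw [hf0]
        exact hlt
    rw [Finset.prod_const, Finset.card_univ, Fintype.card_fin] at h2
    omega
  have hbij : ∀ f : Fin m → Fin k, Function.Injective f → Function.Bijective (Ψ f) := by
    intro f hf
    refine (hΨ f hf).bijective_of_nat_card_le ?_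
    rw [Nat.card_pi, hcard]
    simp only [hO]
    rw [Finset.prod_const, Finset.card_univ, Fintype.card_fin]
  obtain ⟨e⟩ : Nonempty ((Fin m → Fin q) ≃ A) := Finite.card_eq.1 (by rw [hcard]; simp)
  have o : ∀ i : Fin k, (Set.range fun g : A => T i g (s i)) ≃ Fin q :=
    fun i => Finite.equivFinOfCardEq (hO i)
  let pt : ∀ i : Fin k, A → (Set.range fun g : A => T i g (s i)) :=
    fun i g => ⟨T i g (s i), g, rfl⟩
  let R : ∀ (i : Fin k) (h : A), Equiv.Perm (Set.range fun g : A => T i g (s i)) := fun i h =>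
    { toFun := fun t => ⟨T i h t.1, by
        obtain ⟨t, g, rfl⟩ := t
        exact ⟨h * g, by simp⟩⟩
      invFun := fun t => ⟨T i h⁻¹ t.1, by
        obtain ⟨t, g, rfl⟩ := t
        exact ⟨h⁻¹ * g, by simp⟩⟩
      left_inv := fun t => Subtype.ext (by
        change T i h⁻¹ (T i h t.1) = t.1
        rw [← Equiv.Perm.mul_apply, ← map_mul, inv_mul_cancel, map_one, Equiv.Perm.one_apply])
      right_inv := fun t => Subtype.ext (by
        change T i h (T i h⁻¹ t.1) = t.1
        rw [← Equiv.Perm.mul_apply, ← map_mul, mul_inv_cancel, map_one, Equiv.Perm.one_apply]) }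
  let L : A →* Equiv.Perm (Fin m → Fin q) :=
    { toFun := fun h => (e.trans (Equiv.mulLeft h)).trans e.symm
      map_one' := by
        refine Equiv.ext fun y => ?_
        simp
      map_mul' := by
        intro h h'
        refine Equiv.ext fun y => ?_
        simp }
  have hL : ∀ h y, e (L h y) = h * e y := by
    intro h y
    change e (e.symm (h * e y)) = _
    rw [Equiv.apply_symm_apply]
  have hLinj : Function.Injective L := by
    intro h h' hh
    have h1 := hL h (e.symm 1)
    rw [hh, hL] at h1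
    simpa using h1.symm
  refine ⟨fun i y => o i (pt i (e y)), ?_, L.range, ?_, ?_⟩
  · intro f hf
    have h1 : (fun (y : Fin m → Fin q) (j : Fin m) => o (f j) (pt (f j) (e y))) =
        (Equiv.piCongrRight fun j => o (f j)) ∘ Ψ f ∘ e := rfl
    rw [h1]
    exact (Equiv.bijective _).comp ((hbij f hf).comp e.bijective)
  · rintro _ ⟨h, rfl⟩ i
    refine ⟨((o i).symm.trans (R i h)).trans (o i), fun y => ?_⟩
    change o i (pt i (e (L h y))) = o i (R i h ((o i).symm (o i (pt i (e y)))))
    rw [Equiv.symm_apply_apply, hL]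
    congr 1
    refine Subtype.ext ?_
    change T i (h * e y) (s i) = T i h (T i (e y) (s i))
    rw [map_mul, Equiv.Perm.mul_apply]
  · rw [← hcard]
    exact (Nat.card_congr (MonoidHom.ofInjective hLinj).toEquiv).symm

theorem main : Pool.Agent.J6H84.RG.S_Red := by
  classical
  intro m n k p _ C hm hmk hn hC G hG htr hF
  have hp : p.Prime := Fact.out
  have hn0 : n ≠ 0 := by omega
  -- the order of `G`
  let x₀ : Fin m → Fin n := fun _ => ⟨0, by omega⟩
  have horb : Nat.card (MulAction.orbit G x₀) = n ^ m := by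
    have h1 : MulAction.orbit G x₀ = Set.univ := by
      refine Set.eq_univ_of_forall fun y => ?_
      obtain ⟨σ, hσ, h⟩ := htr x₀ y
      exact ⟨⟨σ, hσ⟩, h⟩
    rw [h1, Nat.card_univ]
    simp
  have hstab : ¬ p ∣ Nat.card (MulAction.stabilizer G x₀) := by
    intro hdvd
    obtain ⟨g, hg⟩ := exists_prime_orderOf_dvd_card' p hdvd
    have h1 : ((g : G) : Equiv.Perm (Fin m → Fin n)) x₀ = x₀ := g.2
    have h2 : g ^ p = 1 := by rw [← hg]; exact pow_orderOf_eq_one g
    have h3 : ((g : G) : Equiv.Perm (Fin m → Fin n)) ^ p = 1 := by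
      have := congrArg (fun z : MulAction.stabilizer G x₀ => ((z : G) : Equiv.Perm (Fin m → Fin n))) h2
      simpa using this
    have h4 := hF _ (g : G).2 x₀ h1 h3
    have h5 : g = 1 := Subtype.ext (Subtype.ext h4)
    rw [h5, orderOf_one] at hg
    exact hp.one_lt.ne hg
  have hGcard : Nat.card G = n ^ m * Nat.card (MulAction.stabilizer G x₀) := by
    rw [← horb, ← Nat.card_prod]
    exact (Nat.card_congr (MulAction.orbitProdStabilizerEquivGroup G x₀)).symm
  obtain ⟨P⟩ : Nonempty (Sylow p G) := inferInstance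
  have hPcard : Nat.card P = (p ^ n.factorization p) ^ m := by
    rw [P.card_eq_multiplicity, hGcard, Nat.factorization_mul (pow_ne_zero _ hn0) Nat.card_pos.ne',
      Nat.factorization_pow, Finsupp.add_apply, Finsupp.smul_apply,
      Nat.factorization_eq_zero_of_not_dvd hstab, add_zero, smul_eq_mul, ← pow_mul, mul_comm]
  refine core hm hmk hn hC (A := P) P.isPGroup' (G.subtype.comp (P : Subgroup G).subtype)
    (fun g => hG _ (g : G).2) ?_ _ rfl hPcard
  intro g x hgx
  obtain ⟨j, hj⟩ := P.isPGroup' g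
  refine free_pow (p := p) (G.subtype.comp (P : Subgroup G).subtype) ?_ j g hgx hj
  intro g' h1 h2
  have h3 : ((g' : G) : Equiv.Perm (Fin m → Fin n)) ^ p = 1 := by
    have := congrArg (fun z : P => ((z : G) : Equiv.Perm (Fin m → Fin n))) h2
    simpa using this
  exact Subtype.ext (Subtype.ext (hF _ (g' : G).2 x h1 h3))

end Pool.Agent.J6H61.RG.Red
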